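import Pool.Agent.H94.T1.S6

/-!
# T1, SGSK: the number of the singular polynomials modulo `P ^ 2`
-/

set_option autoImplicit false

namespace Pool.T195

open Polynomial Pool.T1

section Alg

variable {S : Type} [CommRing S] {𝔭 : Ideal S}

theorem md_add (a b : S[X]) : md 𝔭 (a + b) = md 𝔭 a + md 𝔭 b := Polynomial.map_add _

theorem md_sub (a b : S[X]) : md 𝔭 (a - b) = md 𝔭 a - md 𝔭 b := Polynomial.map_sub _

theorem md_mul (a b : S[X]) : md 𝔭 (a * b) = md 𝔭 a * md 𝔭 b := Polynomial.map_mul _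

theorem md_pow (a : S[X]) (n : ℕ) : md 𝔭 (a ^ n) = md 𝔭 a ^ n := Polynomial.map_pow _ _

theorem zer_iff {b : S[X]} : Zer 𝔭 b ↔ md 𝔭 b = 0 := by
  constructor
  · intro h
    ext i
    rw [coeff_map, coeff_zero]
    exact Ideal.Quotient.eq_zero_iff_mem.2 (h i)
  · intro h i
    have h1 : (md 𝔭 b).coeff i = 0 := by rw [h, coeff_zero]
    rw [coeff_map] at h1
    exact Ideal.Quotient.eq_zero_iff_mem.1 h1

theorem zer_mul (h2 : 𝔭 ^ 2 = ⊥) {b d : S[X]} (hb : Zer 𝔭 b) (hd : Zer 𝔭 d) : b * d = 0 := by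
  ext i
  rw [coeff_mul, coeff_zero]
  apply Finset.sum_eq_zero
  intro x _
  have h : b.coeff x.1 * d.coeff x.2 ∈ 𝔭 ^ 2 := by
    rw [pow_two]
    exact Ideal.mul_mem_mul (hb _) (hd _)
  rw [h2] at h
  exact (Submodule.mem_bot S).1 h

/-- The square of the ideal generated by `γ` and `𝔭`, when `𝔭 ^ 2 = 0`. -/
def InS (𝔭 : Ideal S) (γ f : S[X]) : Prop := ∃ a b : S[X], Zer 𝔭 b ∧ f = γ ^ 2 * a + γ * b

theorem InS.congr (h2 : 𝔭 ^ 2 = ⊥) {γ γ' f : S[X]} (h : md 𝔭 γ = md 𝔭 γ') (hf : InS 𝔭 γ f) :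
    InS 𝔭 γ' f := by
  obtain ⟨a, b, hb, rfl⟩ := hf
  have hd : Zer 𝔭 (γ - γ') := by
    rw [zer_iff, md_sub, h, sub_self]
  refine ⟨a, 2 * (γ - γ') * a + b, ?_, ?_⟩
  · rw [zer_iff] at *
    rw [md_add, md_mul, md_mul, hb, hd]
    ring
  · have e1 := zer_mul h2 hd hd
    have e2 := zer_mul h2 hd hb
    linear_combination a * e1 + e2

theorem InS.sub {γ f f' : S[X]} (h : InS 𝔭 γ f) (h' : InS 𝔭 γ f') : InS 𝔭 γ (f - f') := by
  obtain ⟨a, b, hb, rfl⟩ := h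
  obtain ⟨a', b', hb', rfl⟩ := h'
  refine ⟨a - a', b - b', ?_, by ring⟩
  rw [zer_iff] at *
  rw [md_sub, hb, hb', sub_self]

theorem InS.zero {γ r s : S[X]} [Nontrivial (S ⧸ 𝔭)] (hγ : γ.Monic) (hr : r.degree < γ.degree)
    (hs : (md 𝔭 s).degree < (md 𝔭 γ).degree) (h : InS 𝔭 γ (r + γ * s)) :
    r = 0 ∧ md 𝔭 s = 0 := by
  obtain ⟨a, b, hb, e⟩ := h
  have h1 : r = γ * (γ * a + b - s) := by linear_combination e
  have h2 : r = 0 := by
    by_contra h0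
    exact hγ.not_dvd_of_degree_lt h0 hr ⟨_, h1⟩
  refine ⟨h2, ?_⟩
  rw [h2] at h1
  have h3 : γ * a + b - s = 0 := hγ.isRegular.left (by
    show γ * (γ * a + b - s) = γ * 0
    rw [← h1, mul_zero])
  by_contra h0
  refine (hγ.map (Ideal.Quotient.mk 𝔭)).not_dvd_of_degree_lt h0 hs ⟨md 𝔭 a, ?_⟩
  have h4 : s = γ * a + b := by linear_combination -h3
  rw [h4, md_add, md_mul, zer_iff.1 hb, add_zero]

theorem InS.two_le [Nontrivial (S ⧸ 𝔭)] {γ f : S[X]} (hd : IsDomain (S ⧸ 𝔭)) (hγ : γ.Monic)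
    (hf : f.Monic) (h : InS 𝔭 γ f) : 2 * γ.natDegree ≤ f.natDegree := by
  obtain ⟨a, b, hb, e⟩ := h
  have h1 : md 𝔭 f = md 𝔭 γ ^ 2 * md 𝔭 a := by
    rw [e, md_add, md_mul, md_mul, zer_iff.1 hb, mul_zero,
      add_zero, md_pow]
  have h2 : (md 𝔭 f).natDegree = f.natDegree := hf.natDegree_map _
  have h3 : (md 𝔭 γ).natDegree = γ.natDegree := hγ.natDegree_map _
  have h4 : md 𝔭 f ≠ 0 := (hf.map _).ne_zero
  have h5 : md 𝔭 a ≠ 0 := by
    intro h0
    rw [h0, mul_zero] at h1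
    exact h4 h1
  have h6 : md 𝔭 γ ≠ 0 := (hγ.map _).ne_zero
  rw [← h2, h1, natDegree_mul (pow_ne_zero 2 h6) h5, natDegree_pow, h3]
  exact Nat.le_add_right _ _

theorem exists_lift (p : (S ⧸ 𝔭)[X]) : ∃ q : S[X], md 𝔭 q = p ∧ q.degree = p.degree :=
  exists_degree_eq_of_mem_lifts ((mem_lifts p).2 (map_surjective _ Ideal.Quotient.mk_surjective p))

theorem exists_monic_lift (p : (S ⧸ 𝔭)[X]) [Nontrivial (S ⧸ 𝔭)] (hp : p.Monic) :
    ∃ q : S[X], md 𝔭 q = p ∧ q.natDegree = p.natDegree ∧ q.Monic :=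
  lifts_and_natDegree_eq_and_monic
    ((mem_lifts p).2 (map_surjective _ Ideal.Quotient.mk_surjective p)) hp

end Alg

section Cnt

/-- The monic polynomials of degree `n`. -/
def Mo (R : Type) [CommRing R] (n : ℕ) : Set R[X] := {p | p.Monic ∧ p.natDegree = n}

theorem mo_card (R : Type) [CommRing R] [Nontrivial R] (n : ℕ) :
    Nat.card (Mo R n) = Nat.card R ^ n := by
  have e1 : Mo R n ≃ (Fin n → R) :=
    (monicEquivDegreeLT n).trans (degreeLTEquiv R n).toEquiv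
  rw [Nat.card_congr e1, Nat.card_fun, Nat.card_eq_fintype_card (α := Fin n), Fintype.card_fin]

theorem mo_fin (R : Type) [CommRing R] [Nontrivial R] [Finite R] (n : ℕ) : (Mo R n).Finite := by
  have e1 : Mo R n ≃ (Fin n → R) :=
    (monicEquivDegreeLT n).trans (degreeLTEquiv R n).toEquiv
  exact Set.finite_coe_iff.1 (Finite.of_equiv _ e1.symm)

theorem lt_card (R : Type) [CommRing R] (e : ℕ) : Nat.card (degreeLT R e) = Nat.card R ^ e := by
  rw [Nat.card_congr (degreeLTEquiv R e).toEquiv, Nat.card_fun,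
    Nat.card_eq_fintype_card (α := Fin e), Fintype.card_fin]

theorem card_one (S : Type) [CommRing S] [Finite S] (𝔭 : Ideal S) (hm : 𝔭.IsMaximal) (n e : ℕ)
    (γ : S[X]) (hγ : γ.Monic) (he : γ.natDegree = e) :
    {f ∈ Mo S n | InS 𝔭 γ f}.ncard * (Nat.card S ^ e * Nat.card (S ⧸ 𝔭) ^ e) ≤
      Nat.card S ^ n := by
  have hdom : IsDomain (S ⧸ 𝔭) := (Ideal.Quotient.isDomain_iff_prime 𝔭).2 hm.isPrime
  have hnt : Nontrivial (S ⧸ 𝔭) := hdom.toNontrivial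
  have hntS : Nontrivial S := (Ideal.Quotient.mk 𝔭).domain_nontrivial
  by_cases h0 : {f ∈ Mo S n | InS 𝔭 γ f} = ∅
  · rw [h0, Set.ncard_empty, zero_mul]
    exact Nat.zero_le _
  obtain ⟨f0, hf0, hf0'⟩ := Set.nonempty_iff_ne_empty.2 h0
  have h2e : 2 * e ≤ n := by
    rw [← he, ← hf0.2]
    exact InS.two_le hdom hγ hf0.1 hf0'
  choose lf hlf1 hlf2 using fun p : (S ⧸ 𝔭)[X] => exists_lift p
  have hdγ : γ.degree = (e : WithBot ℕ) := by
    rw [degree_eq_natDegree hγ.ne_zero, he]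
  have hdγ' : (md 𝔭 γ).degree = (e : WithBot ℕ) := by
    rw [← hdγ]
    exact hγ.degree_map _
  have hmem : ∀ x : {f ∈ Mo S n | InS 𝔭 γ f} × degreeLT S e × degreeLT (S ⧸ 𝔭) e,
      (x.1 : S[X]) + (x.2.1 + γ * lf x.2.2) ∈ Mo S n := by
    rintro ⟨⟨f, hf, hf'⟩, ⟨r, hr⟩, ⟨s, hs⟩⟩
    have hr' := mem_degreeLT.1 hr
    have hs' := mem_degreeLT.1 hs
    have hfd : f.degree = (n : WithBot ℕ) := by
      rw [degree_eq_natDegree hf.1.ne_zero, hf.2]
    have hlt : (r + γ * lf s).degree < f.degree := by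
      refine lt_of_le_of_lt (degree_add_le _ _) (max_lt ?_ ?_)
      · rw [hfd]
        exact lt_of_lt_of_le hr' (by exact_mod_cast (by omega : e ≤ n))
      · have h1 : (γ * lf s).degree ≤ (e : WithBot ℕ) + (lf s).degree := by
          rw [← hdγ]
          exact degree_mul_le _ _
        have h2 : (lf s).degree < (e : WithBot ℕ) := by
          rw [hlf2]
          exact hs'
        rw [hfd]
        refine lt_of_le_of_lt h1 ?_
        rcases eq_or_ne (lf s) 0 with h3 | h3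
        · rw [h3, degree_zero, WithBot.add_bot]
          exact WithBot.bot_lt_coe _
        · rw [degree_eq_natDegree h3] at h2 ⊢
          have h4 : (lf s).natDegree < e := by exact_mod_cast h2
          exact_mod_cast (by omega : e + (lf s).natDegree < n)
    exact ⟨hf.1.add_of_left hlt, (natDegree_add_eq_left_of_degree_lt hlt).trans hf.2⟩
  let Φ : {f ∈ Mo S n | InS 𝔭 γ f} × degreeLT S e × degreeLT (S ⧸ 𝔭) e → Mo S n :=
    fun x => ⟨(x.1 : S[X]) + (x.2.1 + γ * lf x.2.2), hmem x⟩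
  have hinj : Function.Injective Φ := by
    rintro ⟨⟨f, hf, hf'⟩, ⟨r, hr⟩, ⟨s, hs⟩⟩ ⟨⟨f', hf1, hf1'⟩, ⟨r', hr'⟩, ⟨s', hs'⟩⟩ h
    have h1 : f + (r + γ * lf s) = f' + (r' + γ * lf s') := congrArg Subtype.val h
    have h2 : f' - f = (r - r') + γ * (lf s - lf s') := by linear_combination -h1
    have h3 := InS.sub hf1' hf'
    rw [h2] at h3
    have h4 := InS.zero hγ (r := r - r') (s := lf s - lf s') ?_ ?_ h3
    · have h5 : r = r' := sub_eq_zero.1 h4.1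
      have h6 : s = s' := by
        have h7 := h4.2
        rw [md_sub, hlf1, hlf1] at h7
        exact sub_eq_zero.1 h7
      subst h5
      subst h6
      have h8 : f = f' := add_right_cancel h1
      subst h8
      rfl
    · rw [hdγ]
      exact lt_of_le_of_lt (degree_sub_le _ _) (max_lt (mem_degreeLT.1 hr) (mem_degreeLT.1 hr'))
    · rw [hdγ', md_sub, hlf1, hlf1]
      exact lt_of_le_of_lt (degree_sub_le _ _) (max_lt (mem_degreeLT.1 hs) (mem_degreeLT.1 hs'))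
  have hfin : Finite (Mo S n) := Set.finite_coe_iff.2 (mo_fin S n)
  have h9 := Nat.card_le_card_of_injective Φ hinj
  rw [Nat.card_prod, Nat.card_prod, mo_card, lt_card, lt_card, Nat.card_coe_set_eq] at h9
  exact h9

theorem geom_le {Q : ℝ} (hQ : 1 < Q) (N : ℕ) :
    (∑ e ∈ Finset.Icc 1 N, (Q ^ e)⁻¹) * (Q - 1) ≤ 1 := by
  have h : (∑ e ∈ Finset.Icc 1 N, (Q ^ e)⁻¹) * (Q - 1) = 1 - (Q ^ N)⁻¹ := by
    induction N with
    | zero => simp
    | succ N ih =>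
      rw [Finset.sum_Icc_succ_top (by omega), add_mul, ih]
      have h0 : Q ≠ 0 := by linarith
      field_simp
      ring
  rw [h]
  have : (0 : ℝ) ≤ (Q ^ N)⁻¹ := by positivity
  linarith

end Cnt

theorem SGSK : SGSKStmt := by
  classical
  intro S _ _ 𝔭 n hm h2 hc
  have hdom : IsDomain (S ⧸ 𝔭) := (Ideal.Quotient.isDomain_iff_prime 𝔭).2 hm.isPrime
  have hnt : Nontrivial (S ⧸ 𝔭) := hdom.toNontrivial
  have hntS : Nontrivial S := (Ideal.Quotient.mk 𝔭).domain_nontrivial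
  have hfinq : Finite (S ⧸ 𝔭) := Finite.of_surjective _ Ideal.Quotient.mk_surjective
  have hsub : SgS 𝔭 n ⊆ Mo S n := fun f hf => ⟨hf.1, hf.2.1⟩
  refine ⟨(mo_fin S n).subset hsub, ?_⟩
  choose! L hL1 hL2 hL3 using fun (p : (S ⧸ 𝔭)[X]) (hp : p.Monic) => exists_monic_lift p hp
  have hA : ∀ γ : S[X], {f ∈ Mo S n | InS 𝔭 γ f}.Finite := fun γ =>
    (mo_fin S n).subset fun f hf => hf.1
  have hcov : SgS 𝔭 n ⊆ ↑((Finset.Icc 1 n).biUnion fun e => (mo_fin (S ⧸ 𝔭) e).toFinset.biUnion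
      fun γ => (hA (L γ)).toFinset) := by
    rintro f ⟨hf1, hf2, γ, a, b, hγ, hi, hb, e⟩
    have hin : InS 𝔭 γ f := ⟨a, b, hb, e⟩
    have h3 : (md 𝔭 γ).natDegree = γ.natDegree := hγ.natDegree_map _
    have h4 := InS.two_le hdom hγ hf1 hin
    have h5 : (md 𝔭 γ).natDegree ≠ 0 := by
      intro h0
      have h6 : md 𝔭 γ = 1 := (hγ.map (Ideal.Quotient.mk 𝔭)).natDegree_eq_zero.1 h0
      exact hi.not_isUnit (by rw [h6]; exact isUnit_one)
    have hmo : (md 𝔭 γ).Monic := hγ.map _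
    simp only [Finset.coe_biUnion, Set.mem_iUnion, Finset.mem_coe, Finset.mem_Icc,
      Set.Finite.mem_toFinset]
    refine ⟨(md 𝔭 γ).natDegree, ⟨by omega, by omega⟩, md 𝔭 γ, ⟨hmo, rfl⟩, ⟨hf1, hf2⟩, ?_⟩
    exact hin.congr h2 (hL1 _ hmo).symm
  have hle := Set.ncard_le_ncard hcov (Finset.finite_toSet _)
  rw [Set.ncard_coe_finset] at hle
  set q := Nat.card (S ⧸ 𝔭) with hq
  have hq2 : 2 ≤ q := Finite.one_lt_card
  have hone : ∀ e, ∀ γ ∈ (mo_fin (S ⧸ 𝔭) e).toFinset,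
      ((hA (L γ)).toFinset.card : ℝ) ≤ (q : ℝ) ^ (2 * n) * ((q : ℝ) ^ (3 * e))⁻¹ := by
    intro e γ hγ
    rw [Set.Finite.mem_toFinset] at hγ
    have h3 := card_one S 𝔭 hm n e (L γ) (hL3 γ hγ.1) ((hL2 γ hγ.1).trans hγ.2)
    rw [← Set.ncard_eq_toFinset_card _ (hA (L γ))]
    rw [hc, ← hq, ← pow_mul, ← pow_mul, ← pow_add, show 2 * e + e = 3 * e by ring] at h3
    rw [← div_eq_mul_inv, le_div_iff₀ (by positivity)]
    exact_mod_cast h3
  have hsum : ((SgS 𝔭 n).ncard : ℝ) ≤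
      (q : ℝ) ^ (2 * n) * ∑ e ∈ Finset.Icc 1 n, (((q : ℝ) ^ 2) ^ e)⁻¹ := by
    refine le_trans (Nat.cast_le.2 hle) ?_
    refine le_trans (Nat.cast_le.2 Finset.card_biUnion_le) ?_
    rw [Nat.cast_sum, Finset.mul_sum]
    refine Finset.sum_le_sum fun e _ => ?_
    refine le_trans (Nat.cast_le.2 Finset.card_biUnion_le) ?_
    rw [Nat.cast_sum]
    refine le_trans (Finset.sum_le_sum (hone e)) ?_
    rw [Finset.sum_const, nsmul_eq_mul, ← Set.ncard_eq_toFinset_card _ (mo_fin (S ⧸ 𝔭) e),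
      ← Nat.card_coe_set_eq, mo_card, ← hq]
    apply le_of_eq
    have h0 : (q : ℝ) ≠ 0 := by positivity
    push_cast
    field_simp
    ring
  have hq' : (1 : ℝ) < (q : ℝ) ^ 2 := by
    have : (2 : ℝ) ≤ q := by exact_mod_cast hq2
    nlinarith
  have hfinal : ((SgS 𝔭 n).ncard : ℝ) * ((q : ℝ) ^ 2 - 1) ≤ (q : ℝ) ^ (2 * n) := by
    refine le_trans (mul_le_mul_of_nonneg_right hsum (by linarith)) ?_
    rw [mul_assoc]
    exact mul_le_of_le_one_right (by positivity) (geom_le hq' n)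
  rw [hc, ← pow_mul]
  have hcast : ((q ^ 2 - 1 : ℕ) : ℝ) = (q : ℝ) ^ 2 - 1 := by
    rw [Nat.cast_sub (Nat.one_le_pow _ _ (by omega))]
    push_cast
    ring
  have : (((SgS 𝔭 n).ncard * (q ^ 2 - 1) : ℕ) : ℝ) ≤ ((q ^ (2 * n) : ℕ) : ℝ) := by
    rw [Nat.cast_mul, hcast]
    push_cast
    exact hfinal
  exact_mod_cast this

end Pool.T195
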